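import Pool.Agent.H560R3.BP.Base

/-!
Powers of the base structure and the bound for all universe sizes.
-/

set_option autoImplicit false

namespace Pool.Agent.H560R3.BP

/-- The powers of the base structure give schemes with `3 * 69 ^ n` bits for universes with
`621 ^ n` elements. -/
theorem scheme_pow (n : ℕ) : Nonempty (Scheme 2 (621 ^ n) (69 ^ n) (69 ^ n) (69 ^ n)) := by
  have h := (base.mul (Fin 3)).pow (Fin n)
  refine h.scheme ?_ ?_ ?_ ?_
  · exact ((Fintype.equivFinOfCardEq (by simp [El])).symm :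
      Fin (621 ^ n) ≃ (Fin n → El × Fin 3))
  · exact Fintype.equivFinOfCardEq (by simp)
  · exact Fintype.equivFinOfCardEq (by simp)
  · exact Fintype.equivFinOfCardEq (by simp)

theorem space_le {n m a b c : ℕ} (h : Nonempty (Scheme n m a b c)) : space n m ≤ a + b + c :=
  Nat.sInf_le ⟨a, b, c, rfl, h⟩

/-- the exponent -/
theorem logb_pos : 0 < Real.logb 621 69 :=
  Real.logb_pos (by norm_num) (by norm_num)

theorem logb_lt : Real.logb 621 69 < 0.6586 := by
  have h0 : Real.logb 621 69 < 27 / 41 := by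
    rw [Real.logb_lt_iff_lt_rpow (by norm_num) (by norm_num)]
    have h1 : ((69 : ℝ) ^ (41 : ℕ)) < (621 : ℝ) ^ (27 : ℕ) := by norm_num
    have h2 : ((621 : ℝ) ^ ((27 : ℝ) / 41)) ^ (41 : ℕ) = (621 : ℝ) ^ (27 : ℕ) := by
      rw [← Real.rpow_natCast, ← Real.rpow_mul (by norm_num), ← Real.rpow_natCast]
      norm_num
    exact lt_of_pow_lt_pow_left₀ 41 (by positivity) (by rw [h2]; exact h1)
  refine h0.trans ?_
  norm_num

/-- Schemes for all universe sizes. -/
theorem exists_scheme (m : ℕ) (hm : 1 ≤ m) : ∃ a b c : ℕ, Nonempty (Scheme 2 m a b c) ∧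
    ((a + b + c : ℕ) : ℝ) ≤ 207 * (m : ℝ) ^ Real.logb 621 69 := by
  have h0 := logb_pos
  have hm1 : (1 : ℝ) ≤ m := by exact_mod_cast hm
  obtain ⟨n, hn1, hn2⟩ : ∃ n : ℕ, m ≤ 621 ^ n ∧ 69 ^ n ≤ 69 * (m : ℝ) ^ Real.logb 621 69 := by
    refine ⟨Nat.clog 621 m, Nat.le_pow_clog (by norm_num) m, ?_⟩
    rcases Nat.eq_zero_or_pos (Nat.clog 621 m) with h | h
    · rw [h, pow_zero]
      have : (1 : ℝ) ≤ (m : ℝ) ^ Real.logb 621 69 := Real.one_le_rpow hm1 h0.le
      linarith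
    · obtain ⟨k, hk⟩ : ∃ k, Nat.clog 621 m = k + 1 := ⟨Nat.clog 621 m - 1, by omega⟩
      have h1 : 621 ^ k < m := by
        have h3 : 1 < m := by
          by_contra h4
          have : m = 1 := by omega
          rw [this, Nat.clog_one_right] at h
          exact lt_irrefl _ h
        have h2 := Nat.pow_pred_clog_lt_self (b := 621) (by norm_num) h3
        rw [hk] at h2
        exact h2
      rw [hk, pow_succ]
      have h2 : (69 : ℝ) ^ k ≤ (m : ℝ) ^ Real.logb 621 69 := by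
        have h3 : (69 : ℝ) ^ k = ((621 : ℝ) ^ k) ^ Real.logb 621 69 := by
          rw [← Real.rpow_natCast (621 : ℝ) k, ← Real.rpow_mul (by norm_num), mul_comm,
            Real.rpow_mul (by norm_num), Real.rpow_logb (by norm_num) (by norm_num) (by norm_num),
            Real.rpow_natCast]
        rw [h3]
        exact Real.rpow_le_rpow (by positivity) (by exact_mod_cast h1.le) h0.le
      linarith
  refine ⟨69 ^ n, 69 ^ n, 69 ^ n, Scheme.mono hn1 (scheme_pow n), ?_⟩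
  push_cast
  linarith

theorem space_bound (m : ℕ) (hm : 1 ≤ m) :
    (space 2 m : ℝ) ≤ 207 * (m : ℝ) ^ Real.logb 621 69 := by
  obtain ⟨a, b, c, h1, h2⟩ := exists_scheme m hm
  refine le_trans ?_ h2
  exact_mod_cast space_le h1

/-- The `2/3` lower bound fails. -/
theorem not_two_thirds : ¬∃ c : ℝ, 0 < c ∧ ∃ M : ℕ, ∀ m : ℕ, M ≤ m →
    c * (m : ℝ) ^ ((2 : ℝ) / 3) ≤ (space 2 m : ℝ) := by
  rintro ⟨c, hc, M, h⟩
  have h1 : Filter.Tendsto (fun m : ℕ => (m : ℝ) ^ ((2 : ℝ) / 3 - 0.6586)) Filter.atTop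
      Filter.atTop :=
    (tendsto_rpow_atTop (by norm_num)).comp tendsto_natCast_atTop_atTop
  obtain ⟨m, hm1, hm2⟩ := ((h1.eventually_gt_atTop (207 / c)).and
    (Filter.eventually_ge_atTop (max M 1))).exists
  have hmM : M ≤ m := le_trans (le_max_left _ _) hm2
  have hm0 : 1 ≤ m := le_trans (le_max_right _ _) hm2
  have hmr : (1 : ℝ) ≤ m := by exact_mod_cast hm0
  have h2 := h m hmM
  have h3 := space_bound m hm0
  have h4 : (m : ℝ) ^ Real.logb 621 69 ≤ (m : ℝ) ^ (0.6586 : ℝ) :=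
    Real.rpow_le_rpow_of_exponent_le hmr logb_lt.le
  have h5 : (m : ℝ) ^ ((2 : ℝ) / 3) = (m : ℝ) ^ ((2 : ℝ) / 3 - 0.6586) * (m : ℝ) ^ (0.6586 : ℝ) := by
    rw [← Real.rpow_add (by linarith)]
    congr 1
    ring
  have h6 : 0 < (m : ℝ) ^ (0.6586 : ℝ) := by positivity
  rw [div_lt_iff₀ hc] at hm1
  rw [h5] at h2
  nlinarith [mul_lt_mul_of_pos_right hm1 h6]

end Pool.Agent.H560R3.BP
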