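import Pool.Agent.H560R3.BP.Basic

/-!
A finite incidence structure found by computer search: 69 blocks with 3 elements each, 23 + 23
positions; 3 * 9 > 23.
-/

set_option autoImplicit false

namespace Pool.Agent.H560R3.BP

/-- first positions of the three base blocks -/
def pf : Fin 3 → Fin 3 → Fin 23 := ![![0, 21, 17], ![0, 19, 2], ![0, 17, 4]]

/-- second positions of the three base blocks -/
def ph : Fin 3 → Fin 3 → Fin 23 := ![![16, 12, 3], ![13, 0, 22], ![6, 2, 5]]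

theorem pf_inj : ∀ r s t : Fin 3, pf r s = pf r t → s = t := by decide +kernel

theorem ph_inj : ∀ r s t : Fin 3, ph r s = ph r t → s = t := by decide +kernel

theorem p_rs : ∀ r s r' s' t' : Fin 3, pf r s - pf r' s' = ph r s - ph r' t' →
    r' = r ∧ pf r s - pf r' s' = 0 := by decide +kernel

theorem p_s2 : ∀ r s r' s' α β : Fin 3, pf r s - pf r' α = ph r β - ph r' s' →
    ¬(r = r' ∧ pf r s - pf r' α = 0) → ∀ r'' μ ν : Fin 3,
      pf r s - pf r' α + pf r' s' - pf r'' μ ≠ ph r s - ph r'' ν := by decide +kernel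

/-- Elements of the base structure: an index of a base block, an element of this block, a
translation. -/
abbrev El : Type := Fin 3 × Fin 3 × Fin 23

theorem base : Conf (fun x : El => (x.1, x.2.2)) (fun x : El => x.2.2 + pf x.1 x.2.1)
    (fun x : El => x.2.2 + ph x.1 x.2.1) where
  injB := by
    rintro ⟨r, s, g⟩ ⟨r', s', g'⟩ h1 h2
    simp only [Prod.mk.injEq] at h1 h2
    obtain ⟨rfl, rfl⟩ := h1
    rw [pf_inj r s s' (add_left_cancel h2)]
  injC := by
    rintro ⟨r, s, g⟩ ⟨r', s', g'⟩ h1 h2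
    simp only [Prod.mk.injEq] at h1 h2
    obtain ⟨rfl, rfl⟩ := h1
    rw [ph_inj r s s' (add_left_cancel h2)]
  rs := by
    rintro ⟨r, s, g⟩ ⟨r', s', g'⟩ ⟨r'', t', g''⟩ h1 h2 h3
    simp only [Prod.mk.injEq] at h1 h2 h3 ⊢
    obtain ⟨rfl, rfl⟩ := h1
    have e1 : pf r s - pf r' s' = g' - g := by
      rw [sub_eq_sub_iff_add_eq_add, add_comm (pf r s), add_comm g']
      rw [add_comm (pf r' s')]
      exact h2.symm
    have e2 : ph r s - ph r' t' = g' - g := by
      rw [sub_eq_sub_iff_add_eq_add, add_comm (ph r s), add_comm g']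
      rw [add_comm (ph r' t')]
      exact h3.symm
    obtain ⟨h4, h5⟩ := p_rs r s r' s' t' (e1.trans e2.symm)
    exact ⟨h4, sub_eq_zero.1 (e1.symm.trans h5)⟩
  s2 := by
    rintro ⟨r, s, g⟩ ⟨r', s', g'⟩ ⟨r1, β, g1⟩ ⟨r2, α, g2⟩ ⟨r3, μ, g3⟩ ⟨r4, ν, g4⟩ h1 h2 h3 h4 h5
      h6 h7 h8
    simp only [Prod.mk.injEq, ne_eq, not_and] at h1 h2 h3 h4 h5 h6 h7 h8
    obtain ⟨rfl, rfl⟩ := h2
    obtain ⟨rfl, rfl⟩ := h3
    obtain ⟨rfl, rfl⟩ := h6
    have e1 : pf r1 s - pf r2 α = g2 - g1 := by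
      rw [sub_eq_sub_iff_add_eq_add, add_comm (pf r1 s)]
      exact h4.symm
    have e2 : ph r1 β - ph r2 s' = g2 - g1 := by
      rw [sub_eq_sub_iff_add_eq_add, add_comm (ph r1 β)]
      exact h5
    have hne : ¬(r1 = r2 ∧ pf r1 s - pf r2 α = 0) := by
      rintro ⟨h9, h10⟩
      rw [e1] at h10
      exact h1 h9 (sub_eq_zero.1 h10).symm
    refine p_s2 r1 s r2 s' α β (e1.trans e2.symm) hne r3 μ ν ?_
    rw [e1]
    have e3 : g3 + pf r3 μ = g2 + pf r2 s' := h7
    have e4 : g3 + ph r3 ν = g1 + ph r1 s := h8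
    have e5 : g2 - g1 + pf r2 s' - pf r3 μ = g3 - g1 := by
      have : g2 - g1 + pf r2 s' - pf r3 μ = (g2 + pf r2 s') - g1 - pf r3 μ := by abel
      rw [this, ← e3]
      abel
    have e6 : ph r1 s - ph r3 ν = g3 - g1 := by
      have : ph r1 s - ph r3 ν = (g1 + ph r1 s) - g1 - ph r3 ν := by abel
      rw [this, ← e4]
      abel
    rw [e5, e6]

end Pool.Agent.H560R3.BP
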