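import Mathlib

/-!
Two adaptive bitprobes, sets of at most two elements: schemes, incidence structures, products.
-/

set_option autoImplicit false

namespace Pool.Agent.H560R3.BP

/-- An adaptive two-probe scheme for the subsets with at most `n` elements of a universe with `m`
elements, with three bit tables of sizes `a`, `b`, `c`.  The element `x` has the position `posA x`
in the first table, `posB x` in the second and `posC x` in the third.  For every set `S` with at
most `n` elements there must be a filling `tA`, `tB`, `tC` of the tables such that every query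
(is `x` in `S`?) is answered correctly: the bit `tA (posA x)` is read; if it is `0` (`false`), the
bit `tB (posB x)` is read, otherwise the bit `tC (posC x)`; the answer is this second bit. -/
structure Scheme (n m a b c : ℕ) where
  posA : Fin m → Fin a
  posB : Fin m → Fin b
  posC : Fin m → Fin c
  correct : ∀ S : Finset (Fin m), S.card ≤ n →
    ∃ (tA : Fin a → Bool) (tB : Fin b → Bool) (tC : Fin c → Bool), ∀ x : Fin m,
      (if tA (posA x) = false then tB (posB x) else tC (posC x)) = true ↔ x ∈ S

/-- `space n m` = `s_A(n, m, 2)`: the least total number of bits `a + b + c` of an adaptive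
two-probe scheme for the subsets with at most `n` elements of a universe with `m` elements. -/
noncomputable def space (n m : ℕ) : ℕ :=
  sInf {s | ∃ a b c : ℕ, a + b + c = s ∧ Nonempty (Scheme n m a b c)}

section Conf

variable {E A B C : Type}

/-- The incidence structures used: `a x` is the block of the element `x`, `b x` and `c x` are its
two positions. -/
structure Conf (a : E → A) (b : E → B) (c : E → C) : Prop where
  injB : ∀ x y, a x = a y → b x = b y → x = y
  injC : ∀ x y, a x = a y → c x = c y → x = y
  rs : ∀ x z z', a z = a z' → b z = b x → c z' = c x → a z = a x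
  s2 : ∀ x y x' y' z z', a x ≠ a y → a x' = a x → a y' = a y → b y' = b x → c x' = c y →
    a z = a z' → b z = b y → c z' = c x → False

theorem Conf.pow {a : E → A} {b : E → B} {c : E → C} (h : Conf a b c) (ι : Type) :
    Conf (fun (x : ι → E) (i : ι) => a (x i)) (fun (x : ι → E) (i : ι) => b (x i))
      (fun (x : ι → E) (i : ι) => c (x i)) where
  injB x y h1 h2 := by
    funext i
    exact h.injB _ _ (congrFun h1 i) (congrFun h2 i)
  injC x y h1 h2 := by
    funext i
    exact h.injC _ _ (congrFun h1 i) (congrFun h2 i)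
  rs x z z' h1 h2 h3 := by
    funext i
    exact h.rs _ _ _ (congrFun h1 i) (congrFun h2 i) (congrFun h3 i)
  s2 x y x' y' z z' h1 h2 h3 h4 h5 h6 h7 h8 := by
    obtain ⟨i, hi⟩ := Function.ne_iff.1 h1
    exact h.s2 _ _ _ _ _ _ hi (congrFun h2 i) (congrFun h3 i) (congrFun h4 i) (congrFun h5 i)
      (congrFun h6 i) (congrFun h7 i) (congrFun h8 i)

theorem Conf.mul {a : E → A} {b : E → B} {c : E → C} (h : Conf a b c) (T : Type) :
    Conf (fun x : E × T => a x.1) (fun x : E × T => (b x.1, x.2))
      (fun x : E × T => (c x.1, x.2)) where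
  injB x y h1 h2 := by
    rw [Prod.mk.injEq] at h2
    exact Prod.ext (h.injB _ _ h1 h2.1) h2.2
  injC x y h1 h2 := by
    rw [Prod.mk.injEq] at h2
    exact Prod.ext (h.injC _ _ h1 h2.1) h2.2
  rs x z z' h1 h2 h3 := by
    rw [Prod.mk.injEq] at h2 h3
    exact h.rs _ _ _ h1 h2.1 h3.1
  s2 x y x' y' z z' h1 h2 h3 h4 h5 h6 h7 h8 := by
    rw [Prod.mk.injEq] at h4 h5 h7 h8
    exact h.s2 _ _ _ _ _ _ h1 h2 h3 h4.1 h5.1 h6 h7.1 h8.1

/-- If no block meets both `b x` and `c y`, the set `{x, y}` can be stored. -/
theorem Conf.store_cross {a : E → A} {b : E → B} {c : E → C} (h : Conf a b c) {x y : E}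
    (hxy : a x ≠ a y) (hz : ∀ z z', a z = a z' → b z = b x → c z' = c y → False) :
    ∃ (tA : A → Bool) (tB : B → Bool) (tC : C → Bool), ∀ e : E,
      (if tA (a e) = false then tB (b e) else tC (c e)) = true ↔ e = x ∨ e = y := by
  classical
  refine ⟨fun z => if z = a x then false else if z = a y then true else
      decide (∃ e, a e = z ∧ b e = b x), fun p => decide (p = b x), fun q => decide (q = c y), ?_⟩
  intro e
  by_cases h1 : a e = a x
  · have h2 : e ≠ y := by
      rintro rfl
      exact hxy h1.symm
    simp only [h1, if_true, decide_eq_true_eq]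
    constructor
    · intro h3
      exact Or.inl (h.injB _ _ h1 h3)
    · rintro (h3 | h3)
      · rw [h3]
      · exact absurd h3 h2
  · by_cases h2 : a e = a y
    · have h3 : e ≠ x := by
        rintro rfl
        exact h1 rfl
      simp only [h2, if_neg hxy.symm, if_true, decide_eq_true_eq, Bool.true_eq_false, if_false]
      constructor
      · intro h4
        exact Or.inr (h.injC _ _ h2 h4)
      · rintro (h4 | h4)
        · exact absurd h4 h3
        · rw [h4]
    · have h3 : e ≠ x := by
        rintro rfl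
        exact h1 rfl
      have h4 : e ≠ y := by
        rintro rfl
        exact h2 rfl
      simp only [if_neg h1, if_neg h2, h3, h4, or_self, iff_false]
      by_cases h5 : ∃ e', a e' = a e ∧ b e' = b x
      · rw [decide_eq_true h5]
        simp only [Bool.true_eq_false, if_false, decide_eq_true_eq]
        intro h6
        obtain ⟨e', h7, h8⟩ := h5
        exact hz e' e h7 h8 h6
      · rw [decide_eq_false h5]
        simp only [if_true, decide_eq_true_eq]
        intro h6
        exact h5 ⟨e, rfl, h6⟩

/-- If the two blocks do not contain a foreign copy of the positions, `{x, y}` is stored in the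
second table. -/
theorem Conf.store_B {a : E → A} {b : E → B} {c : E → C} (h : Conf a b c) {x y : E}
    (h1 : ∀ e, a e = a x → b e = b y → e = x ∨ e = y)
    (h2 : ∀ e, a e = a y → b e = b x → e = x ∨ e = y) :
    ∃ (tA : A → Bool) (tB : B → Bool) (tC : C → Bool), ∀ e : E,
      (if tA (a e) = false then tB (b e) else tC (c e)) = true ↔ e = x ∨ e = y := by
  classical
  refine ⟨fun z => !decide (z = a x ∨ z = a y), fun p => decide (p = b x ∨ p = b y),
    fun _ => false, ?_⟩
  intro e
  by_cases h3 : a e = a x ∨ a e = a y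
  · simp only [h3, decide_true, Bool.not_true, if_true, decide_eq_true_eq]
    constructor
    · rintro (h4 | h4)
      · rcases h3 with h3 | h3
        · exact Or.inl (h.injB _ _ h3 h4)
        · exact h2 e h3 h4
      · rcases h3 with h3 | h3
        · exact h1 e h3 h4
        · exact Or.inr (h.injB _ _ h3 h4)
    · rintro (h4 | h4)
      · exact Or.inl (by rw [h4])
      · exact Or.inr (by rw [h4])
  · simp only [h3, decide_false, Bool.not_false, Bool.true_eq_false, if_false, Bool.false_eq_true,
      false_iff]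
    rintro (h4 | h4)
    · exact h3 (Or.inl (by rw [h4]))
    · exact h3 (Or.inr (by rw [h4]))

theorem Conf.store_C {a : E → A} {b : E → B} {c : E → C} (h : Conf a b c) {x y : E}
    (h1 : ∀ e, a e = a x → c e = c y → e = x ∨ e = y)
    (h2 : ∀ e, a e = a y → c e = c x → e = x ∨ e = y) :
    ∃ (tA : A → Bool) (tB : B → Bool) (tC : C → Bool), ∀ e : E,
      (if tA (a e) = false then tB (b e) else tC (c e)) = true ↔ e = x ∨ e = y := by
  classical
  refine ⟨fun z => decide (z = a x ∨ z = a y), fun _ => false,
    fun q => decide (q = c x ∨ q = c y), ?_⟩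
  intro e
  by_cases h3 : a e = a x ∨ a e = a y
  · simp only [h3, decide_true, Bool.true_eq_false, if_false, decide_eq_true_eq]
    constructor
    · rintro (h4 | h4)
      · rcases h3 with h3 | h3
        · exact Or.inl (h.injC _ _ h3 h4)
        · exact h2 e h3 h4
      · rcases h3 with h3 | h3
        · exact h1 e h3 h4
        · exact Or.inr (h.injC _ _ h3 h4)
    · rintro (h4 | h4)
      · exact Or.inl (by rw [h4])
      · exact Or.inr (by rw [h4])
  · simp only [h3, decide_false, if_true, Bool.false_eq_true, false_iff]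
    rintro (h4 | h4)
    · exact h3 (Or.inl (by rw [h4]))
    · exact h3 (Or.inr (by rw [h4]))

/-- Every pair can be stored. -/
theorem Conf.store_pair {a : E → A} {b : E → B} {c : E → C} (h : Conf a b c) (x y : E) :
    ∃ (tA : A → Bool) (tB : B → Bool) (tC : C → Bool), ∀ e : E,
      (if tA (a e) = false then tB (b e) else tC (c e)) = true ↔ e = x ∨ e = y := by
  classical
  by_cases hxy : a x = a y
  · refine h.store_B (fun e h1 h2 => Or.inr (h.injB _ _ (h1.trans hxy) h2))
      (fun e h1 h2 => Or.inl (h.injB _ _ (h1.trans hxy.symm) h2))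
  by_cases hB1 : ∃ e, a e = a y ∧ b e = b x
  · -- the block of `y` meets the position `b x`
    obtain ⟨y', hy1, hy2⟩ := hB1
    by_cases hC1 : ∃ e, a e = a x ∧ c e = c y
    · obtain ⟨x', hx1, hx2⟩ := hC1
      -- then no block meets both `b y` and `c x`
      obtain ⟨tA, tB, tC, ht⟩ := h.store_cross (x := y) (y := x) (Ne.symm hxy)
        (fun z z' h1 h2 h3 => h.s2 x y x' y' z z' hxy hx1 hy1 hy2 hx2 h1 h2 h3)
      exact ⟨tA, tB, tC, fun e => (ht e).trans or_comm⟩
    · by_cases hC2 : ∃ e, a e = a y ∧ c e = c x
      · obtain ⟨y'', hy3, hy4⟩ := hC2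
        exact absurd ((h.rs x y' y'' (hy1.trans hy3.symm) hy2 hy4).symm.trans hy1) hxy
      · exact h.store_C (fun e h1 h2 => absurd ⟨e, h1, h2⟩ hC1)
          (fun e h1 h2 => absurd ⟨e, h1, h2⟩ hC2)
  · by_cases hB2 : ∃ e, a e = a x ∧ b e = b y
    · obtain ⟨x', hx1, hx2⟩ := hB2
      by_cases hC2 : ∃ e, a e = a y ∧ c e = c x
      · obtain ⟨y', hy1, hy2⟩ := hC2
        exact h.store_cross hxy
          (fun z z' h1 h2 h3 => h.s2 y x y' x' z z' (Ne.symm hxy) hy1 hx1 hx2 hy2 h1 h2 h3)
      · by_cases hC1 : ∃ e, a e = a x ∧ c e = c y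
        · obtain ⟨x'', hx3, hx4⟩ := hC1
          exact absurd (hx1.symm.trans (h.rs y x' x'' (hx1.trans hx3.symm) hx2 hx4)) hxy
        · exact h.store_C (fun e h1 h2 => absurd ⟨e, h1, h2⟩ hC1)
            (fun e h1 h2 => absurd ⟨e, h1, h2⟩ hC2)
    · exact h.store_B (fun e h1 h2 => absurd ⟨e, h1, h2⟩ hB2)
        (fun e h1 h2 => absurd ⟨e, h1, h2⟩ hB1)

/-- Every set with at most two elements can be stored. -/
theorem Conf.store {a : E → A} {b : E → B} {c : E → C} (h : Conf a b c) (S : Finset E)
    (hS : S.card ≤ 2) :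
    ∃ (tA : A → Bool) (tB : B → Bool) (tC : C → Bool), ∀ e : E,
      (if tA (a e) = false then tB (b e) else tC (c e)) = true ↔ e ∈ S := by
  classical
  have h3 : S.card = 0 ∨ S.card = 1 ∨ S.card = 2 := by omega
  rcases h3 with h3 | h3 | h3
  · rw [Finset.card_eq_zero] at h3
    subst h3
    exact ⟨fun _ => false, fun _ => false, fun _ => false, fun e => by simp⟩
  · obtain ⟨x, rfl⟩ := Finset.card_eq_one.1 h3
    obtain ⟨tA, tB, tC, ht⟩ := h.store_pair x x
    exact ⟨tA, tB, tC, fun e => (ht e).trans (by simp)⟩
  · obtain ⟨x, y, _, rfl⟩ := Finset.card_eq_two.1 h3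
    obtain ⟨tA, tB, tC, ht⟩ := h.store_pair x y
    exact ⟨tA, tB, tC, fun e => (ht e).trans (by simp)⟩

/-- From an incidence structure to a scheme. -/
theorem Conf.scheme {a : E → A} {b : E → B} {c : E → C} (h : Conf a b c) {m α β γ : ℕ}
    (eE : Fin m ≃ E) (eA : A ≃ Fin α) (eB : B ≃ Fin β) (eC : C ≃ Fin γ) :
    Nonempty (Scheme 2 m α β γ) := by
  classical
  refine ⟨⟨fun x => eA (a (eE x)), fun x => eB (b (eE x)), fun x => eC (c (eE x)), ?_⟩⟩
  intro S hS
  obtain ⟨tA, tB, tC, ht⟩ := h.store (S.map eE.toEmbedding) (by rw [Finset.card_map]; exact hS)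
  refine ⟨fun i => tA (eA.symm i), fun i => tB (eB.symm i), fun i => tC (eC.symm i), ?_⟩
  intro x
  simp only [Equiv.symm_apply_apply]
  rw [ht (eE x)]
  simp

end Conf

/-- Restriction to a smaller universe. -/
theorem Scheme.mono {n m m' a b c : ℕ} (hm : m ≤ m') (h : Nonempty (Scheme n m' a b c)) :
    Nonempty (Scheme n m a b c) := by
  classical
  obtain ⟨σ⟩ := h
  refine ⟨⟨fun x => σ.posA (Fin.castLE hm x), fun x => σ.posB (Fin.castLE hm x),
    fun x => σ.posC (Fin.castLE hm x), ?_⟩⟩
  intro S hS
  obtain ⟨tA, tB, tC, ht⟩ := σ.correct (S.map (Fin.castLEEmb hm))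
    (by rw [Finset.card_map]; exact hS)
  refine ⟨tA, tB, tC, ?_⟩
  intro x
  rw [ht (Fin.castLE hm x)]
  constructor
  · intro h1
    obtain ⟨y, hy, hyx⟩ := Finset.mem_map.1 h1
    have : y = x := Fin.castLE_injective hm hyx
    rw [← this]
    exact hy
  · intro h1
    exact Finset.mem_map.2 ⟨x, h1, rfl⟩

end Pool.Agent.H560R3.BP
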